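import Pool.Agent.Helper66.RMT.DefsW

/-! Random matrix model, step 2 (MP_a499ba_nt), helper95: the weight `1/(1/2 + it)`. -/

set_option autoImplicit false
open Filter Topology MeasureTheory

namespace Pool.Agent.Helper95.KS

/-- the weight of the function `M` -/
noncomputable def bM (t : ℝ) : ℂ := 1 / (1 / 2 + t * Complex.I)

lemma bM_ne (t : ℝ) : (1 / 2 + t * Complex.I : ℂ) ≠ 0 := by
  intro h
  have := congrArg Complex.re h
  simp at this

lemma bM_cont : Continuous bM := by
  unfold bM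
  refine continuous_const.div (by fun_prop) bM_ne

lemma bM_norm (t : ℝ) : ‖bM t‖ = 1 / √(1 / 4 + t ^ 2) := by
  unfold bM
  rw [norm_div, norm_one]
  congr 1
  rw [Complex.norm_eq_sqrt_sq_add_sq]
  congr 1
  simp
  norm_num

lemma bM_le {t : ℝ} (ht : 0 < t) : ‖bM t‖ ≤ 1 / t := by
  rw [bM_norm]
  refine one_div_le_one_div_of_le ht ?_
  rw [Real.le_sqrt ht.le (by positivity)]
  nlinarith

/-- the derivative -/
noncomputable def bM' (t : ℝ) : ℂ := -Complex.I / (1 / 2 + t * Complex.I) ^ 2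

lemma bM_deriv (t : ℝ) : HasDerivAt bM (bM' t) t := by
  have h1 : HasDerivAt (fun t : ℝ => (1 / 2 + t * Complex.I : ℂ)) Complex.I t := by
    have h2 : HasDerivAt (fun t : ℝ => (t : ℂ)) 1 t := Complex.ofRealCLM.hasDerivAt
    simpa using (h2.mul_const Complex.I).const_add (1 / 2 : ℂ)
  have h3 := (hasDerivAt_const t (1 : ℂ)).div h1 (bM_ne t)
  refine h3.congr_deriv ?_
  unfold bM'
  ring

lemma bM'_cont : Continuous bM' := by
  unfold bM'
  exact continuous_const.div (by fun_prop) fun t => pow_ne_zero 2 (bM_ne t)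

lemma bM'_norm {t : ℝ} (ht : 0 < t) : ‖bM' t‖ ≤ 1 / t ^ 2 := by
  have h1 : bM' t = -Complex.I * bM t ^ 2 := by
    unfold bM' bM
    rw [div_pow, one_pow, mul_one_div]
  rw [h1, norm_mul, norm_neg, Complex.norm_I, one_mul, norm_pow]
  have := pow_le_pow_left₀ (norm_nonneg _) (bM_le ht) 2
  rwa [div_pow, one_pow] at this

/-- integration by parts -/
lemma bM_parts {u : ℝ} (hu : u ≠ 0) (A B : ℝ) :
    ∫ t in A..B, Complex.exp ((u * t : ℝ) * Complex.I) * bM t =
      (Complex.exp ((u * B : ℝ) * Complex.I) / (u * Complex.I) * bM B - Complex.exp ((u * A : ℝ) * Complex.I) / (u * Complex.I) * bM A) -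
        ∫ t in A..B, Complex.exp ((u * t : ℝ) * Complex.I) / (u * Complex.I) * bM' t := by
  have hu' : (u : ℂ) * Complex.I ≠ 0 := mul_ne_zero (by exact_mod_cast hu) Complex.I_ne_zero
  have hE : ∀ t : ℝ, HasDerivAt (fun t : ℝ => Complex.exp ((u * t : ℝ) * Complex.I) / (u * Complex.I))
      (Complex.exp ((u * t : ℝ) * Complex.I)) t := by
    intro t
    have h2 : HasDerivAt (fun t : ℝ => ((u * t : ℝ) : ℂ) * Complex.I) (u * Complex.I) t := by
      have h3 : HasDerivAt (fun t : ℝ => (t : ℂ)) 1 t := Complex.ofRealCLM.hasDerivAt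
      have h4 := (h3.const_mul (u : ℂ)).mul_const Complex.I
      simpa using h4
    have h5 := h2.cexp.div_const (u * Complex.I)
    refine h5.congr_deriv ?_
    rw [mul_div_assoc, div_self hu', mul_one]
  have h := intervalIntegral.integral_mul_deriv_eq_deriv_mul (a := A) (b := B) (u := bM) (v := fun t : ℝ => Complex.exp ((u * t : ℝ) * Complex.I) / (u * Complex.I))
    (u' := bM') (v' := fun t : ℝ => Complex.exp ((u * t : ℝ) * Complex.I)) (fun t _ => bM_deriv t) (fun t _ => hE t)
    (bM'_cont.intervalIntegrable _ _) (by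
      apply Continuous.intervalIntegrable
      fun_prop)
  simp_rw [mul_comm (bM _), mul_comm (bM' _)] at h
  exact h

lemma E_norm (u t : ℝ) : ‖Complex.exp ((u * t : ℝ) * Complex.I) / (u * Complex.I)‖ = 1 / |u| := by
  rw [norm_div, Complex.norm_exp_ofReal_mul_I, norm_mul, Complex.norm_I, mul_one, Complex.norm_real, Real.norm_eq_abs]

/-- the tail integral converges -/
theorem bM_conv {u : ℝ} (hu : u ≠ 0) {A : ℝ} (hA : 0 < A) :
    ∃ z : ℂ, Tendsto (fun B : ℝ => ∫ t in A..B, Complex.exp ((u * t : ℝ) * Complex.I) * bM t) atTop (𝓝 z) := by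
  simp_rw [bM_parts hu]
  have h1 : Tendsto (fun B : ℝ => Complex.exp ((u * B : ℝ) * Complex.I) / (u * Complex.I) * bM B) atTop (𝓝 0) := by
    rw [tendsto_zero_iff_norm_tendsto_zero]
    have h2 : Tendsto (fun B : ℝ => 1 / |u| * (1 / B)) atTop (𝓝 (1 / |u| * 0)) := by
      refine Tendsto.const_mul _ ?_
      exact tendsto_const_nhds.div_atTop tendsto_id
    rw [mul_zero] at h2
    refine squeeze_zero' (Eventually.of_forall fun _ => norm_nonneg _) ?_ h2
    filter_upwards [eventually_gt_atTop 0] with B hB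
    rw [norm_mul, E_norm]
    exact mul_le_mul_of_nonneg_left (bM_le hB) (by positivity)
  have hint : IntegrableOn (fun t : ℝ => Complex.exp ((u * t : ℝ) * Complex.I) / (u * Complex.I) * bM' t) (Set.Ioi A) := by
    have h3 : IntegrableOn (fun t : ℝ => 1 / |u| * t ^ (-2 : ℝ)) (Set.Ioi A) :=
      (integrableOn_Ioi_rpow_of_lt (by norm_num) hA).const_mul _
    refine h3.mono' ?_ ?_
    · refine Continuous.aestronglyMeasurable ?_
      have := bM'_cont
      have h5 : Continuous fun t : ℝ => Complex.exp ((u * t : ℝ) * Complex.I) / (u * Complex.I) := by fun_prop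
      exact h5.mul this
    · filter_upwards [ae_restrict_mem measurableSet_Ioi] with t ht
      have ht0 : 0 < t := hA.trans ht
      rw [norm_mul, E_norm]
      refine mul_le_mul_of_nonneg_left ((bM'_norm ht0).trans (le_of_eq ?_)) (by positivity)
      rw [Real.rpow_neg ht0.le, one_div]
      congr 1
      exact (Real.rpow_natCast t 2).symm
  have h4 := intervalIntegral_tendsto_integral_Ioi A hint tendsto_id
  exact ⟨_, (h1.sub tendsto_const_nhds).sub h4⟩

theorem bM_drift {u : ℝ} (hu : 1 ≤ u) {A B : ℝ} (hA : 1 ≤ A) (hAB : A ≤ B) :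
    ‖∫ t in A..B, Complex.exp ((u * t : ℝ) * Complex.I) * bM t‖ ≤ 3 := by
  have hu0 : 0 < u := by linarith
  rw [bM_parts hu0.ne']
  have h1 : ∀ t : ℝ, 1 ≤ t → ‖Complex.exp ((u * t : ℝ) * Complex.I) / (u * Complex.I) * bM t‖ ≤ 1 := by
    intro t ht
    rw [norm_mul, E_norm, abs_of_pos hu0]
    have h2 : 1 / u ≤ 1 := by rw [div_le_one hu0]; exact hu
    have h3 : ‖bM t‖ ≤ 1 := (bM_le (by linarith)).trans (by rw [div_le_one (by linarith)]; exact ht)
    exact mul_le_one₀ h2 (norm_nonneg _) h3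
  have h2 : ‖∫ t in A..B, Complex.exp ((u * t : ℝ) * Complex.I) / (u * Complex.I) * bM' t‖ ≤ 1 := by
    have h3 : ‖∫ t in A..B, Complex.exp ((u * t : ℝ) * Complex.I) / (u * Complex.I) * bM' t‖ ≤ ∫ t in A..B, t ^ (-2 : ℝ) := by
      refine intervalIntegral.norm_integral_le_of_norm_le hAB ?_ ?_
      · refine ae_of_all _ fun t ht => ?_
        have ht0 : 0 < t := by linarith [ht.1]
        rw [norm_mul, E_norm, abs_of_pos hu0]
        have h4 : 1 / u ≤ 1 := by rw [div_le_one hu0]; exact hu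
        have h5 : ‖bM' t‖ ≤ t ^ (-2 : ℝ) := by
          refine (bM'_norm ht0).trans (le_of_eq ?_)
          rw [Real.rpow_neg ht0.le, one_div]
          congr 1
          exact (Real.rpow_natCast t 2).symm
        calc 1 / u * ‖bM' t‖ ≤ 1 * t ^ (-2 : ℝ) := mul_le_mul h4 h5 (norm_nonneg _) (by norm_num)
          _ = _ := one_mul _
      · apply intervalIntegral.intervalIntegrable_rpow
        right
        rw [Set.uIcc_of_le hAB]
        intro h
        linarith [h.1]
    refine h3.trans ?_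
    rw [integral_rpow (by
      right
      refine ⟨by norm_num, ?_⟩
      rw [Set.uIcc_of_le hAB]
      intro h
      linarith [h.1])]
    have h6 : (-2 : ℝ) + 1 = -1 := by norm_num
    rw [h6, Real.rpow_neg_one, Real.rpow_neg_one]
    have h7 : A⁻¹ ≤ 1 := inv_le_one_of_one_le₀ hA
    have h8 : 0 ≤ B⁻¹ := by
      have : 0 < B := by linarith
      positivity
    have h9 : (B⁻¹ - A⁻¹) / (-1 : ℝ) = A⁻¹ - B⁻¹ := by ring
    rw [h9]
    linarith
  refine (norm_sub_le _ _).trans ?_
  have h3 := (norm_sub_le (Complex.exp ((u * B : ℝ) * Complex.I) / (u * Complex.I) * bM B)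
    (Complex.exp ((u * A : ℝ) * Complex.I) / (u * Complex.I) * bM A)).trans (add_le_add (h1 B (hA.trans hAB)) (h1 A hA))
  linarith

theorem bM_mean : Tendsto (fun T : ℝ => (∫ t in (1 : ℝ)..T, t * ‖bM t‖) / T) atTop (𝓝 1) := by
  have hc : Continuous fun t : ℝ => t * ‖bM t‖ := continuous_id.mul bM_cont.norm
  have hle : ∀ t : ℝ, 1 ≤ t → t * ‖bM t‖ ≤ 1 := by
    intro t ht
    have h1 := mul_le_mul_of_nonneg_left (bM_le (show 0 < t by linarith)) (show 0 ≤ t by linarith)
    rwa [mul_one_div_cancel (by linarith)] at h1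
  have hge : ∀ t : ℝ, 1 ≤ t → 1 - t ^ (-2 : ℝ) ≤ t * ‖bM t‖ := by
    intro t ht
    have ht0 : 0 < t := by linarith
    rw [bM_norm, mul_one_div, le_div_iff₀ (by positivity)]
    have h1 : t ^ (-2 : ℝ) = 1 / t ^ 2 := by
      rw [Real.rpow_neg ht0.le, one_div]
      congr 1
      exact Real.rpow_natCast t 2
    rw [h1]
    have h2 : √(1 / 4 + t ^ 2) ≤ t + 1 / (8 * t) := by
      rw [Real.sqrt_le_left (by positivity)]
      have : (t + 1 / (8 * t)) ^ 2 = t ^ 2 + 1 / 4 + (1 / (8 * t)) ^ 2 := by field_simp; ring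
      rw [this]
      nlinarith [sq_nonneg (1 / (8 * t))]
    have h3 : 0 ≤ 1 - 1 / t ^ 2 := by
      rw [sub_nonneg, div_le_one (by positivity)]
      nlinarith
    refine (mul_le_mul_of_nonneg_left h2 h3).trans ?_
    have h4 : (1 - 1 / t ^ 2) * (t + 1 / (8 * t)) = t - (7 / 8) / t - (1 / 8) / t ^ 3 := by field_simp; ring
    rw [h4]
    have h5 : 0 ≤ (7 / 8) / t := by positivity
    have h6 : 0 ≤ (1 / 8) / t ^ 3 := by positivity
    linarith
  have hlow : ∀ T : ℝ, 1 ≤ T → 1 - 2 / T ≤ (∫ t in (1 : ℝ)..T, t * ‖bM t‖) / T := by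
    intro T hT
    have hT0 : 0 < T := by linarith
    have hir : IntervalIntegrable (fun t : ℝ => t ^ (-2 : ℝ)) volume 1 T := by
      apply intervalIntegral.intervalIntegrable_rpow
      right
      rw [Set.uIcc_of_le hT]
      intro h
      linarith [h.1]
    have h1 : ∫ t in (1 : ℝ)..T, (1 - t ^ (-2 : ℝ)) ≤ ∫ t in (1 : ℝ)..T, t * ‖bM t‖ := by
      refine intervalIntegral.integral_mono_on hT (intervalIntegrable_const.sub hir) (hc.intervalIntegrable _ _) ?_
      intro t ht
      exact hge t ht.1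
    rw [intervalIntegral.integral_sub intervalIntegrable_const hir, intervalIntegral.integral_const, integral_rpow (by
      right
      refine ⟨by norm_num, ?_⟩
      rw [Set.uIcc_of_le hT]
      intro h
      linarith [h.1])] at h1
    have h6 : (-2 : ℝ) + 1 = -1 := by norm_num
    rw [h6, Real.rpow_neg_one, Real.rpow_neg_one, smul_eq_mul] at h1
    rw [le_div_iff₀ hT0]
    have h7 : 0 ≤ T⁻¹ := by positivity
    have h8 : (1 - 2 / T) * T = T - 2 := by field_simp
    rw [h8]
    have h9 : (T⁻¹ - (1 : ℝ)⁻¹) / (-1 : ℝ) = 1 - T⁻¹ := by ring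
    rw [h9] at h1
    linarith
  have hup : ∀ T : ℝ, 1 ≤ T → (∫ t in (1 : ℝ)..T, t * ‖bM t‖) / T ≤ 1 := by
    intro T hT
    have hT0 : 0 < T := by linarith
    rw [div_le_one hT0]
    have h1 : ∫ t in (1 : ℝ)..T, t * ‖bM t‖ ≤ ∫ t in (1 : ℝ)..T, (1 : ℝ) :=
      intervalIntegral.integral_mono_on hT (hc.intervalIntegrable _ _) intervalIntegrable_const fun t ht => hle t ht.1
    rw [intervalIntegral.integral_const, smul_eq_mul, mul_one] at h1
    linarith
  have h2 : Tendsto (fun T : ℝ => 1 - 2 / T) atTop (𝓝 (1 - 0)) := by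
    refine tendsto_const_nhds.sub ?_
    exact tendsto_const_nhds.div_atTop tendsto_id
  rw [sub_zero] at h2
  refine tendsto_of_tendsto_of_tendsto_of_le_of_le' h2 tendsto_const_nhds ?_ ?_
  · filter_upwards [eventually_ge_atTop 1] with T hT using hlow T hT
  · filter_upwards [eventually_ge_atTop 1] with T hT using hup T hT

theorem isW_bM : Pool.Agent.Helper66.RMT.IsW bM 1 where
  meas := bM_cont.measurable
  bd := by
    refine ⟨1, fun t ht => (bM_le (by linarith)).trans ?_⟩
    have h1 := Real.log_nonneg ht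
    gcongr
    linarith
  mean := bM_mean
  conv := by
    intro u hu
    obtain ⟨z, hz⟩ := bM_conv hu.ne' (A := 6 * Real.pi) (by positivity)
    refine ⟨z.re, ?_⟩
    have hK : Tendsto (fun K : ℕ => 2 * Real.pi * (K : ℝ)) atTop atTop :=
      tendsto_natCast_atTop_atTop.const_mul_atTop (by positivity)
    exact ((Complex.continuous_re.tendsto z).comp (hz.comp hK))
  drift := by
    refine ⟨3, fun u hu K hK => ?_⟩
    have hK' : (3 : ℝ) ≤ K := by exact_mod_cast hK
    have hpi := Real.pi_gt_three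
    refine (Complex.abs_re_le_norm _).trans (bM_drift hu (by linarith) ?_)
    nlinarith

end Pool.Agent.Helper95.KS
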