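import Pool.Agent.Helper95.RMT.Four

/-! Blocks A0, A1, A2 of the random matrix model (MP_a499ba_nt), helper95. -/

set_option autoImplicit false
open MeasureTheory Finset

namespace Pool.Agent.Helper95.KS

open Pool.Agent.Helper66.RMT

lemma vdm_bdd (N : ℕ) : ∃ C : ℝ, 0 ≤ C ∧ ∀ θ : Fin N → ℝ, vdm θ ≤ C := by
  refine ⟨∏ j : Fin N, ∏ _k ∈ Ioi j, (2 : ℝ) ^ 2, by positivity, fun θ => ?_⟩
  unfold vdm
  refine Finset.prod_le_prod (fun i _ => Finset.prod_nonneg fun k _ => by positivity) fun i _ => ?_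
  refine Finset.prod_le_prod (fun k _ => by positivity) fun k _ => ?_
  exact pow_le_pow_left₀ (norm_nonneg _) (ez_sub_le (θ i) (θ k)) 2

lemma vdm_mass_w (N : ℕ) (s : ℝ) : ∫ θ, vdm θ * ∏ k, ‖ez s - ez (θ k)‖ ∂(nuN N) =
    N.factorial * ((2 * Real.pi) ^ N * ∏ i ∈ range N, rk i) := by
  have hw : Continuous fun t : ℝ => ((‖ez s - ez t‖ : ℝ) : ℂ) := by
    have := ez_cont
    fun_prop
  have h := andr N hw
  rw [det_four] at h
  have e : ∀ θ : Fin N → ℝ, ((vdm θ : ℝ) : ℂ) * ∏ i, ((‖ez s - ez (θ i)‖ : ℝ) : ℂ) =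
      ((vdm θ * ∏ k, ‖ez s - ez (θ k)‖ : ℝ) : ℂ) := by
    intro θ
    push_cast
    rfl
  simp_rw [e] at h
  rw [integral_complex_ofReal] at h
  exact_mod_cast h

lemma vdm_mass (N : ℕ) : ∫ θ, vdm θ ∂(nuN N) = N.factorial * (2 * Real.pi) ^ N := by
  have hw : Continuous fun _ : ℝ => (1 : ℂ) := continuous_const
  have h := andr N hw
  rw [det_one] at h
  simp only [Finset.prod_const_one, mul_one] at h
  rw [integral_complex_ofReal] at h
  exact_mod_cast h

lemma vdm_integrable (N : ℕ) : Integrable (fun θ : Fin N → ℝ => vdm θ) (nuN N) := by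
  obtain ⟨C, -, hC⟩ := vdm_bdd N
  refine Integrable.of_bound (vdm_cont N).aestronglyMeasurable C (ae_of_all _ fun θ => ?_)
  rw [Real.norm_of_nonneg (vdm_nonneg θ)]
  exact hC θ

/-- the weight divided by the modulus of the derivative -/
private noncomputable def F1 (N : ℕ) (q : ℝ × (Fin N → ℝ)) : ℝ := vdm q.2 * ∏ k, ‖ez q.1 - ez (q.2 k)‖

private lemma F1_cont (N : ℕ) : Continuous (F1 N) := by
  have h1 := vdm_cont N
  have h2 := ez_cont
  unfold F1
  fun_prop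

private lemma F1_nonneg {N : ℕ} (q : ℝ × (Fin N → ℝ)) : 0 ≤ F1 N q :=
  mul_nonneg (vdm_nonneg _) (Finset.prod_nonneg fun _ _ => norm_nonneg _)

private lemma F1_bdd (N : ℕ) : ∃ C : ℝ, ∀ q, F1 N q ≤ C := by
  obtain ⟨C, hC0, hC⟩ := vdm_bdd N
  refine ⟨C * ∏ _k : Fin N, 2, fun q => ?_⟩
  exact mul_le_mul (hC q.2) (Finset.prod_le_prod (fun _ _ => norm_nonneg _) fun k _ => ez_sub_le _ _)
    (Finset.prod_nonneg fun _ _ => norm_nonneg _) hC0

private lemma F1_int (N : ℕ) : Integrable (F1 N) (nu.prod (nuN N)) := by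
  obtain ⟨C, hC⟩ := F1_bdd N
  refine Integrable.of_bound (F1_cont N).aestronglyMeasurable C (ae_of_all _ fun q => ?_)
  rw [Real.norm_of_nonneg (F1_nonneg q)]
  exact hC q

private lemma vdm_dz {N : ℕ} (θ : Fin (N + 1) → ℝ) (j : Fin (N + 1)) :
    vdm θ * (1 / ‖dz θ j‖) = F1 N (θ j, fun k => θ (j.succAbove k)) := by
  rw [vdm_split θ j, dz_norm, Finset.prod_pow]
  unfold F1
  by_cases h : (∏ k : Fin N, ‖ez (θ j) - ez (θ (j.succAbove k))‖) = 0
  · rw [h]; simp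
  · field_simp

private lemma vdm_dz2 {N : ℕ} (θ : Fin (N + 1) → ℝ) (j : Fin (N + 1)) :
    vdm θ * (1 / ‖dz θ j‖) ^ 2 ≤ vdm fun k => θ (j.succAbove k) := by
  rw [vdm_split θ j, dz_norm, Finset.prod_pow]
  by_cases h : (∏ k : Fin N, ‖ez (θ j) - ez (θ (j.succAbove k))‖) = 0
  · rw [h]
    simpa using vdm_nonneg _
  · apply le_of_eq
    field_simp

private lemma meas_dz {N : ℕ} (j : Fin N) : Measurable fun θ : Fin N → ℝ => 1 / ‖dz θ j‖ :=
  ((dz_cont j).norm.measurable.const_div 1)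

lemma int_dz {N : ℕ} (j : Fin (N + 1)) :
    Integrable (fun θ : Fin (N + 1) → ℝ => vdm θ * (1 / ‖dz θ j‖)) (nuN (N + 1)) ∧
      ∫ θ, vdm θ * (1 / ‖dz θ j‖) ∂(nuN (N + 1)) =
        2 * Real.pi * (N.factorial * ((2 * Real.pi) ^ N * ∏ i ∈ range N, rk i)) := by
  have e : (fun θ : Fin (N + 1) → ℝ => vdm θ * (1 / ‖dz θ j‖)) = fun θ => F1 N (θ j, fun k => θ (j.succAbove k)) :=
    funext fun θ => vdm_dz θ j
  refine ⟨?_, ?_⟩
  · obtain ⟨C, hC⟩ := F1_bdd N
    have hm : Measurable fun θ : Fin (N + 1) → ℝ => vdm θ * (1 / ‖dz θ j‖) := (vdm_cont _).measurable.mul (meas_dz j)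
    refine Integrable.of_bound hm.aestronglyMeasurable C (ae_of_all _ fun θ => ?_)
    rw [vdm_dz, Real.norm_of_nonneg (F1_nonneg _)]
    exact hC _
  · rw [e, int_split j (F1_int N)]
    have e1 : ∀ s, ∫ θ, F1 N (s, θ) ∂(nuN N) = N.factorial * ((2 * Real.pi) ^ N * ∏ i ∈ range N, rk i) :=
      fun s => vdm_mass_w N s
    simp_rw [e1]
    rw [integral_const, nu_real, smul_eq_mul]

lemma int_dz2 {N : ℕ} (j : Fin (N + 1)) :
    Integrable (fun θ : Fin (N + 1) → ℝ => vdm θ * (1 / ‖dz θ j‖) ^ 2) (nuN (N + 1)) ∧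
      ∫ θ, vdm θ * (1 / ‖dz θ j‖) ^ 2 ∂(nuN (N + 1)) ≤ 2 * Real.pi * (N.factorial * (2 * Real.pi) ^ N) := by
  have hm : Measurable fun θ : Fin (N + 1) → ℝ => vdm θ * (1 / ‖dz θ j‖) ^ 2 :=
    (vdm_cont _).measurable.mul ((meas_dz j).pow_const 2)
  have h0 : ∀ θ : Fin (N + 1) → ℝ, 0 ≤ vdm θ * (1 / ‖dz θ j‖) ^ 2 := fun θ => mul_nonneg (vdm_nonneg _) (by positivity)
  obtain ⟨C, hC0, hC⟩ := vdm_bdd N
  have hG : Integrable (fun q : ℝ × (Fin N → ℝ) => vdm q.2) (nu.prod (nuN N)) := by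
    refine Integrable.of_bound ((vdm_cont N).comp continuous_snd).aestronglyMeasurable C (ae_of_all _ fun q => ?_)
    rw [Real.norm_of_nonneg (vdm_nonneg _)]
    exact hC _
  have hG2 : Integrable (fun θ : Fin (N + 1) → ℝ => vdm fun k => θ (j.succAbove k)) (nuN (N + 1)) := by
    have hc : Continuous fun θ : Fin (N + 1) → ℝ => vdm fun k => θ (j.succAbove k) :=
      (vdm_cont N).comp (by fun_prop)
    refine Integrable.of_bound hc.aestronglyMeasurable C (ae_of_all _ fun q => ?_)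
    rw [Real.norm_of_nonneg (vdm_nonneg _)]
    exact hC _
  have hI : Integrable (fun θ : Fin (N + 1) → ℝ => vdm θ * (1 / ‖dz θ j‖) ^ 2) (nuN (N + 1)) := by
    refine hG2.mono' hm.aestronglyMeasurable (ae_of_all _ fun θ => ?_)
    rw [Real.norm_of_nonneg (h0 θ)]
    exact vdm_dz2 θ j
  refine ⟨hI, (integral_mono hI hG2 fun θ => vdm_dz2 θ j).trans (le_of_eq ?_)⟩
  have h := int_split j hG
  rw [h]
  simp_rw [vdm_mass]
  rw [integral_const, nu_real, smul_eq_mul]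

lemma cue_eq (N : ℕ) : cue N = (nuN N).withDensity fun θ => ENNReal.ofReal (vdm θ / (N.factorial * (2 * Real.pi) ^ N)) := by
  unfold cue
  rw [box_pi]

lemma cue_int {N : ℕ} {g : (Fin N → ℝ) → ℝ} (h : Integrable (fun θ => vdm θ * g θ) (nuN N)) :
    Integrable g (cue N) ∧ ∫ θ, g θ ∂(cue N) = (∫ θ, vdm θ * g θ ∂(nuN N)) / (N.factorial * (2 * Real.pi) ^ N) := by
  have hc : (0 : ℝ) < N.factorial * (2 * Real.pi) ^ N := by positivity
  have hm : Measurable fun θ : Fin N → ℝ => ENNReal.ofReal (vdm θ / (N.factorial * (2 * Real.pi) ^ N)) :=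
    ((vdm_cont N).measurable.div_const _).ennreal_ofReal
  have hlt : ∀ᵐ θ ∂(nuN N), ENNReal.ofReal (vdm θ / (N.factorial * (2 * Real.pi) ^ N)) < ⊤ :=
    ae_of_all _ fun θ => ENNReal.ofReal_lt_top
  have e : ∀ θ : Fin N → ℝ, (ENNReal.ofReal (vdm θ / (N.factorial * (2 * Real.pi) ^ N))).toReal • g θ =
      vdm θ * g θ / (N.factorial * (2 * Real.pi) ^ N) := by
    intro θ
    rw [ENNReal.toReal_ofReal (div_nonneg (vdm_nonneg θ) hc.le), smul_eq_mul]
    ring
  rw [cue_eq]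
  refine ⟨?_, ?_⟩
  · rw [integrable_withDensity_iff_integrable_smul' hm hlt]
    simp_rw [e]
    exact h.div_const _
  · rw [integral_withDensity_eq_integral_toReal_smul hm hlt]
    simp_rw [e]
    rw [integral_div]

lemma aa_rk (i : ℕ) : aa (i + 1) = rk i := by
  rw [rk_gamma]
  unfold aa
  push_cast
  have h1 : (i : ℝ) + 1 + 1 = i + 2 := by ring
  have h2 : (i : ℝ) + 1 + 1 / 2 = i + 3 / 2 := by ring
  rw [h1, h2]

lemma prod_aa (M : ℕ) : ∏ j ∈ Icc 1 M, aa j = ∏ i ∈ range M, rk i := by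
  induction M with
  | zero => simp
  | succ M ih => rw [Finset.prod_Icc_succ_top (by omega), ih, Finset.prod_range_succ, aa_rk]

end Pool.Agent.Helper95.KS

namespace Pool.Agent.Helper66.RMT

open Pool.Agent.Helper95.KS

/-- A0. Weyl's normalisation. -/
theorem cue_prob (N : ℕ) : IsProbabilityMeasure (cue N) := by
  refine ⟨?_⟩
  have hc : (0 : ℝ) < N.factorial * (2 * Real.pi) ^ N := by positivity
  rw [cue_eq, withDensity_apply _ MeasurableSet.univ, Measure.restrict_univ,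
    ← ofReal_integral_eq_lintegral_ofReal ((vdm_integrable N).div_const _)
      (ae_of_all _ fun θ => div_nonneg (vdm_nonneg θ) hc.le), integral_div, vdm_mass, div_self hc.ne', ENNReal.ofReal_one]

/-- A1. Keating-Snaith for the first moment. -/
theorem amp_mean (N : ℕ) (hN : 1 ≤ N) :
    Integrable amp (cue N) ∧ ∫ θ, amp θ ∂(cue N) = ∏ j ∈ Icc 1 (N - 1), aa j := by
  obtain ⟨M, rfl⟩ : ∃ M, N = M + 1 := ⟨N - 1, by omega⟩
  have h := fun j : Fin (M + 1) => cue_int (int_dz j).1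
  have hi : ∀ j : Fin (M + 1), Integrable (fun θ : Fin (M + 1) → ℝ => 1 / ‖dz θ j‖) (cue (M + 1)) := fun j => (h j).1
  refine ⟨integrable_finsetSum _ fun j _ => hi j, ?_⟩
  unfold amp
  rw [integral_finsetSum _ fun j _ => hi j]
  have e : ∀ j : Fin (M + 1), ∫ θ, 1 / ‖dz θ j‖ ∂(cue (M + 1)) = (∏ i ∈ range M, rk i) / (M + 1) := by
    intro j
    rw [(h j).2, (int_dz j).2, Nat.factorial_succ]
    have h1 : (M.factorial : ℝ) ≠ 0 := by exact_mod_cast M.factorial_ne_zero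
    have h2 : ((M : ℝ) + 1) ≠ 0 := by positivity
    have h3 := Real.pi_ne_zero
    push_cast
    rw [pow_succ]
    field_simp
  simp_rw [e]
  rw [Finset.sum_const, Finset.card_univ, Fintype.card_fin, Nat.add_sub_cancel, prod_aa, nsmul_eq_mul]
  have h2 : ((M : ℝ) + 1) ≠ 0 := by positivity
  push_cast
  field_simp

/-- A2. Second moment. -/
theorem amp_sq (N : ℕ) :
    Integrable (fun θ => amp θ ^ 2) (cue N) ∧ ∫ θ, amp θ ^ 2 ∂(cue N) ≤ N := by
  rcases N with _ | M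
  · have := cue_prob 0
    have e : (fun θ : Fin 0 → ℝ => amp θ ^ 2) = fun _ => 0 := by
      funext θ
      simp [amp]
    rw [e]
    simp
  · have h := fun j : Fin (M + 1) => cue_int (int_dz2 j).1
    have hi : ∀ j : Fin (M + 1), Integrable (fun θ : Fin (M + 1) → ℝ => (1 / ‖dz θ j‖) ^ 2) (cue (M + 1)) := fun j => (h j).1
    have e : ∀ j : Fin (M + 1), ∫ θ, (1 / ‖dz θ j‖) ^ 2 ∂(cue (M + 1)) ≤ 1 / ((M : ℝ) + 1) := by
      intro j
      rw [(h j).2, div_le_iff₀ (by positivity)]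
      refine (int_dz2 j).2.trans (le_of_eq ?_)
      rw [Nat.factorial_succ]
      have h2 : ((M : ℝ) + 1) ≠ 0 := by positivity
      push_cast
      rw [pow_succ]
      field_simp
    have hm : Measurable fun θ : Fin (M + 1) → ℝ => amp θ :=
      Finset.measurable_sum _ fun j _ => (dz_cont j).norm.measurable.const_div 1
    have hle : ∀ θ : Fin (M + 1) → ℝ, amp θ ^ 2 ≤ ((M : ℝ) + 1) * ∑ j, (1 / ‖dz θ j‖) ^ 2 := by
      intro θ
      have := sq_sum_le_card_mul_sum_sq (s := (univ : Finset (Fin (M + 1)))) (f := fun j => 1 / ‖dz θ j‖)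
      rw [Finset.card_univ, Fintype.card_fin] at this
      push_cast at this
      exact this
    have hI2 : Integrable (fun θ : Fin (M + 1) → ℝ => ((M : ℝ) + 1) * ∑ j, (1 / ‖dz θ j‖) ^ 2) (cue (M + 1)) :=
      (integrable_finsetSum _ fun j _ => hi j).const_mul _
    have hI : Integrable (fun θ : Fin (M + 1) → ℝ => amp θ ^ 2) (cue (M + 1)) := by
      refine hI2.mono' (hm.pow_const 2).aestronglyMeasurable (ae_of_all _ fun θ => ?_)
      rw [Real.norm_of_nonneg (by positivity)]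
      exact hle θ
    refine ⟨hI, (integral_mono hI hI2 hle).trans ?_⟩
    rw [integral_const_mul, integral_finsetSum _ fun j _ => hi j]
    have h3 : ∑ j : Fin (M + 1), ∫ θ, (1 / ‖dz θ j‖) ^ 2 ∂(cue (M + 1)) ≤ ∑ _j : Fin (M + 1), 1 / ((M : ℝ) + 1) :=
      Finset.sum_le_sum fun j _ => e j
    rw [Finset.sum_const, Finset.card_univ, Fintype.card_fin, nsmul_eq_mul] at h3
    have h2 : (0 : ℝ) < (M : ℝ) + 1 := by positivity
    calc ((M : ℝ) + 1) * ∑ j : Fin (M + 1), ∫ θ, (1 / ‖dz θ j‖) ^ 2 ∂(cue (M + 1))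
        ≤ ((M : ℝ) + 1) * (((M + 1 : ℕ) : ℝ) * (1 / ((M : ℝ) + 1))) := mul_le_mul_of_nonneg_left h3 h2.le
      _ = ((M + 1 : ℕ) : ℝ) := by push_cast; field_simp

end Pool.Agent.Helper66.RMT
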