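import Mathlib

/-! Constant of the random matrix model (MP_a499ba_nt), helper95. The determinant of Cauchy and the Toeplitz determinant of the symbol `|1 - z|`. Pure linear algebra. -/

set_option autoImplicit false
open Finset

namespace Pool.Agent.Helper95.KS

/-- one step of the determinant of Cauchy: last row and column split off -/
theorem border {n : ℕ} (x y : Fin (n + 1) → ℝ) (h : ∀ i j, x i + y j ≠ 0) :
    (Matrix.of fun i j : Fin n => (x i.castSucc + y j.castSucc)⁻¹ - (x i.castSucc + y (Fin.last n))⁻¹).det =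
      (∏ j : Fin n, (y (Fin.last n) - y j.castSucc)) * (∏ i : Fin n, (x i.castSucc + y (Fin.last n))⁻¹) *
        (Matrix.of fun i j : Fin n => (x i.castSucc + y j.castSucc)⁻¹).det := by
  have e : (Matrix.of fun i j : Fin n => (x i.castSucc + y j.castSucc)⁻¹ - (x i.castSucc + y (Fin.last n))⁻¹) =
      Matrix.of fun i j : Fin n => (y (Fin.last n) - y j.castSucc) *
        (Matrix.of fun i j : Fin n => (x i.castSucc + y (Fin.last n))⁻¹ *
          (Matrix.of fun i j : Fin n => (x i.castSucc + y j.castSucc)⁻¹) i j) i j := by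
    ext i j
    simp only [Matrix.of_apply]
    have h1 := h i.castSucc j.castSucc
    have h2 := h i.castSucc (Fin.last n)
    field_simp
    ring
  rw [e, Matrix.det_mul_row, Matrix.det_mul_column]
  ring

/-- the determinant of Cauchy, recursion -/
theorem cauchy_succ {n : ℕ} (x y : Fin (n + 1) → ℝ) (h : ∀ i j, x i + y j ≠ 0) :
    (Matrix.of fun i j : Fin (n + 1) => (x i + y j)⁻¹).det =
      (∏ i : Fin n, (x (Fin.last n) - x i.castSucc)) * (∏ j : Fin (n + 1), (x (Fin.last n) + y j)⁻¹) *
        ((∏ j : Fin n, (y (Fin.last n) - y j.castSucc)) * (∏ i : Fin n, (x i.castSucc + y (Fin.last n))⁻¹)) *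
        (Matrix.of fun i j : Fin n => (x i.castSucc + y j.castSucc)⁻¹).det := by
  classical
  -- subtract the last row
  have e1 : (Matrix.of fun i j : Fin (n + 1) => (x i + y j)⁻¹).det =
      (Matrix.of fun i j : Fin (n + 1) => if i = Fin.last n then (x i + y j)⁻¹ else
        (x i + y j)⁻¹ - (x (Fin.last n) + y j)⁻¹).det := by
    refine Matrix.det_eq_of_forall_row_eq_smul_add_const (fun i => if i = Fin.last n then 0 else 1) (Fin.last n) (by simp) ?_
    intro i j
    simp only [Matrix.of_apply, if_true]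
    split_ifs with hi
    · ring
    · ring
  have e2 : (Matrix.of fun i j : Fin (n + 1) => if i = Fin.last n then (x i + y j)⁻¹ else
        (x i + y j)⁻¹ - (x (Fin.last n) + y j)⁻¹) =
      Matrix.of fun i j : Fin (n + 1) => (x (Fin.last n) + y j)⁻¹ *
        (Matrix.of fun i j : Fin (n + 1) => (if i = Fin.last n then 1 else x (Fin.last n) - x i) *
          (Matrix.of fun i j : Fin (n + 1) => if i = Fin.last n then (1 : ℝ) else (x i + y j)⁻¹) i j) i j := by
    ext i j
    simp only [Matrix.of_apply]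
    split_ifs with hi
    · rw [hi]; ring
    · have h1 := h i j
      have h2 := h (Fin.last n) j
      field_simp
      ring
  have e3 : (Matrix.of fun i j : Fin (n + 1) => if i = Fin.last n then (1 : ℝ) else (x i + y j)⁻¹).det =
      (Matrix.of fun i j : Fin n => (x i.castSucc + y j.castSucc)⁻¹ - (x i.castSucc + y (Fin.last n))⁻¹).det := by
    rw [← Matrix.det_transpose]
    have e4 : (Matrix.transpose (Matrix.of fun i j : Fin (n + 1) => if i = Fin.last n then (1 : ℝ) else (x i + y j)⁻¹)).det =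
        (Matrix.of fun j i : Fin (n + 1) => if j = Fin.last n then (if i = Fin.last n then (1 : ℝ) else (x i + y j)⁻¹) else
          (if i = Fin.last n then (0 : ℝ) else (x i + y j)⁻¹ - (x i + y (Fin.last n))⁻¹)).det := by
      refine Matrix.det_eq_of_forall_row_eq_smul_add_const (fun i => if i = Fin.last n then 0 else 1) (Fin.last n) (by simp) ?_
      intro j i
      simp only [Matrix.of_apply, if_true, Matrix.transpose_apply]
      split_ifs with hi hj hj
      · ring
      · ring
      · ring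
      · ring
    rw [e4, Matrix.det_succ_column _ (Fin.last n), Fin.sum_univ_castSucc, Finset.sum_eq_zero, zero_add]
    · simp only [Matrix.of_apply, if_true, mul_one, Fin.val_last, ← two_mul, pow_mul, neg_one_sq, one_pow, one_mul]
      rw [← Matrix.det_transpose]
      congr 1
      ext i j
      simp only [Matrix.transpose_apply, Matrix.submatrix_apply, Matrix.of_apply, Fin.succAbove_last]
      rw [if_neg (Fin.castSucc_lt_last j).ne, if_neg (Fin.castSucc_lt_last i).ne]
    · intro i _
      simp only [Matrix.of_apply, if_true, if_neg (Fin.castSucc_lt_last i).ne, mul_zero, zero_mul]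
  have e6 : (∏ i : Fin (n + 1), (if i = Fin.last n then (1 : ℝ) else x (Fin.last n) - x i)) =
      ∏ i : Fin n, (x (Fin.last n) - x i.castSucc) := by
    rw [Fin.prod_univ_castSucc, if_pos rfl, mul_one]
    exact Finset.prod_congr rfl fun i _ => if_neg (Fin.castSucc_lt_last i).ne
  rw [e1, e2, Matrix.det_mul_row, Matrix.det_mul_column, e3, border x y h, e6]
  ring

private theorem tele (f : ℕ → ℝ) (k n : ℕ) (h : k ≤ n) :
    ∑ i ∈ range n, (f i - f (i + 1)) * (if k ≤ i then 1 else 0) = f k - f n := by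
  induction n, h using Nat.le_induction with
  | base =>
    rw [sub_self]
    refine Finset.sum_eq_zero fun i hi => ?_
    rw [if_neg (by have := Finset.mem_range.1 hi; omega), mul_zero]
  | succ n hn ih => rw [Finset.sum_range_succ, ih, if_pos hn]; ring

/-- column operations -/
theorem det_tele (n : ℕ) (g : ℕ → ℕ → ℝ) :
    (Matrix.of fun i j : Fin n => g i j - g i (j + 1)).det = (Matrix.of fun i j : Fin n => g i j - g i n).det := by
  set U : Matrix (Fin n) (Fin n) ℝ := Matrix.of fun k j => if (j : ℕ) ≤ k then 1 else 0 with hU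
  have h1 : U.det = 1 := by
    rw [Matrix.det_of_isLowerTriangular U]
    · simp [hU]
    · intro i j hij
      simp only [hU, Matrix.of_apply]
      rw [if_neg]
      have : (i : ℕ) < j := by simpa using hij
      omega
  have h2 : (Matrix.of fun i j : Fin n => g i j - g i (j + 1)) * U = Matrix.of fun i j : Fin n => g i j - g i n := by
    ext i j
    rw [Matrix.mul_apply]
    simp only [hU, Matrix.of_apply]
    rw [Fin.sum_univ_eq_sum_range (fun k => (g i k - g i (k + 1)) * (if (j : ℕ) ≤ k then 1 else 0)) n,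
      tele (g i) j n j.2.le]
  rw [← h2, Matrix.det_mul, h1, mul_one]

/-- the Fourier coefficients of `|1 - z|` -/
noncomputable def tf (m : ℤ) : ℝ := 4 / Real.pi / (1 - 4 * (m : ℝ) ^ 2)

/-- the quotient of two consecutive determinants -/
noncomputable def rk (n : ℕ) : ℝ := 2 / Real.pi * ((2 * n + 2) / (2 * n + 1)) * Real.Wallis.W n

private noncomputable def cx (i : ℕ) : ℝ := 2 * i
private noncomputable def cy (i : ℕ) : ℝ := 1 - 2 * i

private theorem cxy (i j : ℕ) : cx i + cy j ≠ 0 := by
  unfold cx cy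
  intro h
  have h1 : ((2 * i + 1 : ℕ) : ℝ) = ((2 * j : ℕ) : ℝ) := by push_cast; linarith
  have h2 : 2 * i + 1 = 2 * j := by exact_mod_cast h1
  omega

private noncomputable def cc (n : ℕ) : ℝ := (Matrix.of fun i j : Fin n => (cx i + cy j)⁻¹).det

private theorem cc_succ (n : ℕ) : cc (n + 1) = Real.Wallis.W n * cc n := by
  unfold cc
  rw [cauchy_succ (fun i : Fin (n + 1) => cx i) (fun j : Fin (n + 1) => cy j) fun i j => cxy i j]
  simp only [Fin.val_last, Fin.val_castSucc]
  congr 1
  rw [Fin.prod_univ_castSucc]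
  simp only [Fin.val_last, Fin.val_castSucc]
  have e : (cx n + cy n)⁻¹ = 1 := by unfold cx cy; norm_num
  rw [e, mul_one, ← Finset.prod_mul_distrib, ← Finset.prod_mul_distrib, ← Finset.prod_mul_distrib,
    Fin.prod_univ_eq_prod_range (fun i => (cx n - cx i) * (cx n + cy i)⁻¹ * ((cy n - cy i) * (cx i + cy n)⁻¹)) n,
    ← Finset.prod_range_reflect, Real.Wallis.W]
  refine Finset.prod_congr rfl fun i hi => ?_
  have hi := Finset.mem_range.1 hi
  have h1 : ((n - 1 - i : ℕ) : ℝ) = (n : ℝ) - 1 - i := by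
    rw [Nat.sub_sub, Nat.cast_sub (by omega)]; push_cast; ring
  unfold cx cy
  rw [h1]
  have h2 : (2 * (n : ℝ) + (1 - 2 * ((n : ℝ) - 1 - i))) = 2 * i + 3 := by ring
  have h3 : (2 * ((n : ℝ) - 1 - i) + (1 - 2 * n)) = -(2 * i + 1) := by ring
  have h4 : (2 * (n : ℝ) - 2 * ((n : ℝ) - 1 - i)) = 2 * i + 2 := by ring
  have h5 : (1 - 2 * (n : ℝ) - (1 - 2 * ((n : ℝ) - 1 - i))) = -(2 * i + 2) := by ring
  rw [h2, h3, h4, h5]
  have h6 : (2 * (i : ℝ) + 3) ≠ 0 := by positivity
  have h7 : (2 * (i : ℝ) + 1) ≠ 0 := by positivity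
  field_simp

/-- the Toeplitz determinant -/
theorem det_tf (n : ℕ) : (Matrix.of fun i j : Fin n => tf ((i : ℤ) - j)).det = ∏ i ∈ range n, rk i := by
  have e1 : (Matrix.of fun i j : Fin n => tf ((i : ℤ) - j)) =
      (2 / Real.pi) • Matrix.of fun i j : Fin n => (cx i + cy j)⁻¹ - (cx i + cy (j + 1))⁻¹ := by
    ext i j
    simp only [Matrix.of_apply, Matrix.smul_apply, smul_eq_mul, tf]
    have h1 := cxy i j
    have h2 := cxy i (j + 1)
    have h3 : (1 - 4 * (((i : ℤ) - j : ℤ) : ℝ) ^ 2) = -((cx i + cy j) * (cx i + cy (j + 1))) := by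
      unfold cx cy; push_cast; ring
    rw [h3]
    have h4 : (cx i + cy j)⁻¹ - (cx i + cy (j + 1))⁻¹ = -(2 * ((cx i + cy j) * (cx i + cy (j + 1)))⁻¹) := by
      field_simp
      unfold cx cy
      push_cast
      ring
    rw [h4]
    have := Real.pi_ne_zero
    field_simp
    ring
  have e2 := det_tele n fun i j => (cx i + cy j)⁻¹
  have e3 := border (fun i : Fin (n + 1) => cx i) (fun j : Fin (n + 1) => cy j) fun i j => cxy i j
  simp only [Fin.val_last, Fin.val_castSucc] at e3
  rw [e1, Matrix.det_smul, e2, e3, Fintype.card_fin]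
  have e4 : (∏ x : Fin n, (cy n - cy x)) * ∏ x : Fin n, (cx x + cy n)⁻¹ = ∏ i ∈ range n, ((2 * (i : ℝ) + 2) / (2 * i + 1)) := by
    rw [← Finset.prod_mul_distrib, Fin.prod_univ_eq_prod_range (fun i => (cy n - cy i) * (cx i + cy n)⁻¹) n,
      ← Finset.prod_range_reflect]
    refine Finset.prod_congr rfl fun i hi => ?_
    have hi := Finset.mem_range.1 hi
    have h1 : ((n - 1 - i : ℕ) : ℝ) = (n : ℝ) - 1 - i := by
      rw [Nat.sub_sub, Nat.cast_sub (by omega)]; push_cast; ring
    unfold cx cy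
    rw [h1]
    have h3 : (2 * ((n : ℝ) - 1 - i) + (1 - 2 * n)) = -(2 * i + 1) := by ring
    have h5 : (1 - 2 * (n : ℝ) - (1 - 2 * ((n : ℝ) - 1 - i))) = -(2 * i + 2) := by ring
    rw [h3, h5]
    have h7 : (2 * (i : ℝ) + 1) ≠ 0 := by positivity
    field_simp
  rw [e4]
  have e5 : ∀ n, cc n = ∏ i ∈ range n, Real.Wallis.W i := by
    intro n
    induction n with
    | zero => simp [cc]
    | succ n ih => rw [cc_succ, ih, Finset.prod_range_succ]; ring
  have e6 := e5 n
  unfold cc at e6
  have e7 : (2 / Real.pi) ^ n = ∏ _i ∈ range n, (2 / Real.pi) := by rw [Finset.prod_const, Finset.card_range]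
  rw [e6, e7, ← Finset.prod_mul_distrib, ← Finset.prod_mul_distrib]
  refine Finset.prod_congr rfl fun i _ => ?_
  unfold rk
  ring

theorem rk_pos (n : ℕ) : 0 < rk n := by
  have h1 := Real.Wallis.W_pos n
  have h2 := Real.pi_pos
  unfold rk
  positivity

theorem rk_succ (n : ℕ) : rk (n + 1) = rk n * ((n + 1) * (n + 2) / (n + 3 / 2) ^ 2) := by
  unfold rk
  rw [Real.Wallis.W_succ]
  have := Real.pi_ne_zero
  have h1 : (2 * (n : ℝ) + 1) ≠ 0 := by positivity
  have h2 : (2 * (n : ℝ) + 3) ≠ 0 := by positivity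
  have h3 : ((n : ℝ) + 3 / 2) ≠ 0 := by positivity
  have h4 : (2 * ((n + 1 : ℕ) : ℝ) + 1) = 2 * n + 3 := by push_cast; ring
  have h5 : (2 * ((n + 1 : ℕ) : ℝ) + 2) = 2 * n + 4 := by push_cast; ring
  have h6 : ((n : ℝ) + 3 / 2) = (2 * n + 3) / 2 := by ring
  rw [h4, h5, h6]
  field_simp
  ring

theorem rk_gamma (n : ℕ) : rk n = Real.Gamma (n + 1) * Real.Gamma (n + 2) / Real.Gamma (n + 3 / 2) ^ 2 := by
  induction n with
  | zero =>
    have h1 : Real.Gamma (3 / 2) = 1 / 2 * √Real.pi := by
      rw [show (3 / 2 : ℝ) = 1 / 2 + 1 by norm_num, Real.Gamma_add_one (by norm_num), Real.Gamma_one_half_eq]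
    have h2 : √Real.pi ^ 2 = Real.pi := Real.sq_sqrt Real.pi_pos.le
    have := Real.pi_ne_zero
    unfold rk
    simp only [Nat.cast_zero, zero_add, mul_zero, Real.Gamma_one, Real.Gamma_two, h1, Real.Wallis.W, Finset.range_zero,
      Finset.prod_empty]
    rw [mul_pow, h2]
    field_simp
  | succ n ih =>
    rw [rk_succ, ih]
    have h1 : ((n + 1 : ℕ) : ℝ) + 1 = (n + 1) + 1 := by push_cast; ring
    have h2 : ((n + 1 : ℕ) : ℝ) + 2 = (n + 2) + 1 := by push_cast; ring
    have h3 : ((n + 1 : ℕ) : ℝ) + 3 / 2 = (n + 3 / 2) + 1 := by push_cast; ring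
    rw [h1, h2, h3, Real.Gamma_add_one (show ((n : ℝ) + 1) ≠ 0 by positivity),
      Real.Gamma_add_one (show ((n : ℝ) + 2) ≠ 0 by positivity), Real.Gamma_add_one (show ((n : ℝ) + 3 / 2) ≠ 0 by positivity)]
    have h4 : Real.Gamma ((n : ℝ) + 3 / 2) ≠ 0 := (Real.Gamma_pos_of_pos (by positivity)).ne'
    have h5 : ((n : ℝ) + 3 / 2) ≠ 0 := by positivity
    field_simp

end Pool.Agent.Helper95.KS
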