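import Pool.Agent.Helper66.RMT.Defs
import Pool.Agent.Helper95.RMT.Cauchy

/-! Random matrix model (MP_a499ba_nt), helper95: the identity of Andreief for the weight of Weyl, splitting off one angle. -/

set_option autoImplicit false
open MeasureTheory Finset

namespace Pool.Agent.Helper95.KS

open Pool.Agent.Helper66.RMT

/-- Lebesgue measure on `[0, 2π)` -/
noncomputable def nu : Measure ℝ := volume.restrict (Set.Ico 0 (2 * Real.pi))

instance nu_fin : IsFiniteMeasure nu := by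
  unfold nu
  infer_instance

lemma nu_univ : nu Set.univ = ENNReal.ofReal (2 * Real.pi) := by
  unfold nu
  rw [Measure.restrict_apply_univ, Real.volume_Ico, sub_zero]

lemma nu_real : nu.real Set.univ = 2 * Real.pi := by
  rw [Measure.real, nu_univ, ENNReal.toReal_ofReal (by positivity)]

/-- Lebesgue measure on the box -/
noncomputable def nuN (N : ℕ) : Measure (Fin N → ℝ) := Measure.pi fun _ => nu

instance nuN_fin (N : ℕ) : IsFiniteMeasure (nuN N) := by
  unfold nuN
  infer_instance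

lemma box_pi (N : ℕ) : (volume : Measure (Fin N → ℝ)).restrict (Helper66.RMT.box N) = nuN N := by
  unfold Helper66.RMT.box nuN nu
  rw [volume_pi, Measure.restrict_pi_pi]

/-- the point of the circle -/
noncomputable def ez (t : ℝ) : ℂ := Complex.exp (t * Complex.I)

lemma ez_cont : Continuous ez := by
  unfold ez
  fun_prop

lemma ez_norm (t : ℝ) : ‖ez t‖ = 1 := Complex.norm_exp_ofReal_mul_I t

lemma ez_star (t : ℝ) : star (ez t) = ez (-t) := by
  unfold ez
  rw [Complex.star_def, ← Complex.exp_conj]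
  simp

lemma vdm_eq {N : ℕ} (θ : Fin N → ℝ) : ((vdm θ : ℝ) : ℂ) =
    (Matrix.of fun i j : Fin N => ez (θ i) ^ (j : ℕ)).det *
      (Matrix.of fun i j : Fin N => (star (ez (θ i))) ^ (j : ℕ)).det := by
  have h1 := Matrix.det_vandermonde fun i => ez (θ i)
  have h2 := Matrix.det_vandermonde fun i => star (ez (θ i))
  unfold Matrix.vandermonde at h1 h2
  rw [h1, h2, ← Finset.prod_mul_distrib]
  unfold vdm
  push_cast
  refine Finset.prod_congr rfl fun i _ => ?_
  rw [← Finset.prod_mul_distrib]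
  refine Finset.prod_congr rfl fun j _ => ?_
  rw [← star_sub, Complex.star_def, Complex.mul_conj', norm_sub_rev]
  rfl

lemma int_cont {f : ℝ → ℂ} (hf : Continuous f) : Integrable f nu :=
  (hf.integrableOn_Icc (a := 0) (b := 2 * Real.pi)).mono_set Set.Ico_subset_Icc_self

/-- the identity of Andreief -/
theorem andr (N : ℕ) {w : ℝ → ℂ} (hw : Continuous w) :
    ∫ θ, ((vdm θ : ℝ) : ℂ) * ∏ i, w (θ i) ∂(nuN N) =
      N.factorial * (Matrix.of fun a b : Fin N => ∫ t, ez t ^ (a : ℕ) * star (ez t) ^ (b : ℕ) * w t ∂nu).det := by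
  classical
  set T : Fin N → Fin N → ℂ := fun a b => ∫ t, ez t ^ (a : ℕ) * star (ez t) ^ (b : ℕ) * w t ∂nu with hT
  have hc : ∀ a b : Fin N, Continuous fun t => ez t ^ (a : ℕ) * star (ez t) ^ (b : ℕ) * w t := by
    intro a b
    have h1 := ez_cont
    have h2 : Continuous fun t => star (ez t) := continuous_star.comp h1
    fun_prop
  have e1 : ∀ θ : Fin N → ℝ, ((vdm θ : ℝ) : ℂ) * ∏ i, w (θ i) =
      ∑ τ : Equiv.Perm (Fin N), ∑ σ : Equiv.Perm (Fin N), ((Equiv.Perm.sign σ : ℤ) : ℂ) * ((Equiv.Perm.sign τ : ℤ) : ℂ) *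
        ∏ i, (ez (θ i) ^ ((σ i : Fin N) : ℕ) * star (ez (θ i)) ^ ((τ i : Fin N) : ℕ) * w (θ i)) := by
    intro θ
    rw [vdm_eq, ← Matrix.det_transpose, ← Matrix.det_transpose (Matrix.of fun i j : Fin N => (star (ez (θ i))) ^ (j : ℕ)),
      Matrix.det_apply', Matrix.det_apply', Finset.sum_mul_sum, Finset.sum_comm, Finset.sum_mul]
    refine Finset.sum_congr rfl fun τ _ => ?_
    rw [Finset.sum_mul]
    refine Finset.sum_congr rfl fun σ _ => ?_
    simp only [Matrix.transpose_apply, Matrix.of_apply, Finset.prod_mul_distrib]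
    ring
  simp_rw [e1]
  have hi : ∀ σ τ : Equiv.Perm (Fin N), Integrable (fun θ : Fin N → ℝ =>
      ∏ i, (ez (θ i) ^ ((σ i : Fin N) : ℕ) * star (ez (θ i)) ^ ((τ i : Fin N) : ℕ) * w (θ i))) (nuN N) := by
    intro σ τ
    unfold nuN
    exact Integrable.fintype_prod (f := fun i t => ez t ^ ((σ i : Fin N) : ℕ) * star (ez t) ^ ((τ i : Fin N) : ℕ) * w t)
      fun i => int_cont (hc _ _)
  rw [integral_finsetSum _ fun τ _ => integrable_finsetSum _ fun σ _ => (hi σ τ).const_mul _]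
  have e2 : ∀ τ : Equiv.Perm (Fin N), ∫ θ, ∑ σ : Equiv.Perm (Fin N), ((Equiv.Perm.sign σ : ℤ) : ℂ) * ((Equiv.Perm.sign τ : ℤ) : ℂ) *
        ∏ i, (ez (θ i) ^ ((σ i : Fin N) : ℕ) * star (ez (θ i)) ^ ((τ i : Fin N) : ℕ) * w (θ i)) ∂(nuN N) =
      (Matrix.of T).det := by
    intro τ
    rw [integral_finsetSum _ fun σ _ => (hi σ τ).const_mul _, Matrix.det_apply',
      ← Equiv.sum_comp (Equiv.mulRight τ)]
    refine Finset.sum_congr rfl fun ρ _ => ?_
    rw [integral_const_mul]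
    have e3 : ∫ θ, ∏ i, (ez (θ i) ^ ((((Equiv.mulRight τ) ρ) i : Fin N) : ℕ) * star (ez (θ i)) ^ ((τ i : Fin N) : ℕ) * w (θ i)) ∂(nuN N) =
        ∏ i, T (((Equiv.mulRight τ) ρ) i) (τ i) := by
      unfold nuN
      exact integral_fintype_prod_eq_prod (f := fun i t =>
        ez t ^ ((((Equiv.mulRight τ) ρ) i : Fin N) : ℕ) * star (ez t) ^ ((τ i : Fin N) : ℕ) * w t)
    rw [e3, ← Equiv.prod_comp τ fun i => Matrix.of T (ρ i) i]
    have e4 : ((Equiv.Perm.sign ((Equiv.mulRight τ) ρ) : ℤ) : ℂ) * ((Equiv.Perm.sign τ : ℤ) : ℂ) = ((Equiv.Perm.sign ρ : ℤ) : ℂ) := by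
      rw [Equiv.coe_mulRight, Equiv.Perm.sign_mul]
      have h3 : ((Equiv.Perm.sign τ : ℤ) : ℂ) * ((Equiv.Perm.sign τ : ℤ) : ℂ) = 1 := by
        have := Int.units_mul_self (Equiv.Perm.sign τ)
        have h4 : (((Equiv.Perm.sign τ * Equiv.Perm.sign τ : ℤˣ) : ℤ) : ℂ) = 1 := by rw [this]; simp
        push_cast at h4
        exact h4
      push_cast
      rw [mul_assoc, h3, mul_one]
    rw [e4]
    rfl
  simp_rw [e2]
  rw [Finset.sum_const, Finset.card_univ, Fintype.card_perm, Fintype.card_fin, nsmul_eq_mul]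

end Pool.Agent.Helper95.KS
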