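import Pool.Agent.Helper95.RMT.Split

/-! Random matrix model (MP_a499ba_nt), helper95: the Fourier coefficients of `|e^{is} - e^{it}|`, the Toeplitz determinants. -/

set_option autoImplicit false
open MeasureTheory Finset

namespace Pool.Agent.Helper95.KS

open Pool.Agent.Helper66.RMT

lemma nu_int (f : ℝ → ℂ) : ∫ t, f t ∂nu = ∫ t in (0 : ℝ)..(2 * Real.pi), f t := by
  unfold nu
  rw [intervalIntegral.integral_of_le (by positivity), integral_Ico_eq_integral_Ioo, ← integral_Ioc_eq_integral_Ioo]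

/-- the character -/
noncomputable def em (m : ℤ) (t : ℝ) : ℂ := Complex.exp ((m : ℂ) * Complex.I * t)

lemma ez_mul_star (t : ℝ) : ez t * star (ez t) = 1 := by
  rw [Complex.star_def, Complex.mul_conj', ez_norm]
  norm_num

lemma ez_pow (t : ℝ) (a b : ℕ) : ez t ^ a * star (ez t) ^ b = em ((a : ℤ) - b) t := by
  rw [ez_star]
  unfold ez em
  rw [← Complex.exp_nat_mul, ← Complex.exp_nat_mul, ← Complex.exp_add]
  congr 1
  push_cast
  ring

lemma exp_two_pi (m : ℤ) : Complex.exp ((m : ℂ) * Complex.I * ((2 * Real.pi : ℝ) : ℂ)) = 1 := by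
  rw [Complex.exp_eq_one_iff]
  exact ⟨m, by push_cast; ring⟩

lemma em_int (m : ℤ) : ∫ t, em m t ∂nu = if m = 0 then ((2 * Real.pi : ℝ) : ℂ) else 0 := by
  rw [nu_int]
  split_ifs with h
  · simp [em, h]
  · unfold em
    have hc : (m : ℂ) * Complex.I ≠ 0 := mul_ne_zero (by exact_mod_cast h) Complex.I_ne_zero
    rw [integral_exp_mul_complex hc, exp_two_pi]
    simp

/-- half integral frequencies -/
private lemma half_int (m : ℤ) : ∫ t in (0 : ℝ)..(2 * Real.pi), Complex.exp (((m : ℂ) - 1 / 2) * Complex.I * t) =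
    -2 / (((m : ℂ) - 1 / 2) * Complex.I) := by
  have h0 : (m : ℂ) - 1 / 2 ≠ 0 := by
    intro h
    have h1 : ((2 * m : ℤ) : ℂ) = ((1 : ℤ) : ℂ) := by push_cast; linear_combination 2 * h
    have h2 : 2 * m = 1 := by exact_mod_cast h1
    omega
  have hc : ((m : ℂ) - 1 / 2) * Complex.I ≠ 0 := mul_ne_zero h0 Complex.I_ne_zero
  rw [integral_exp_mul_complex hc]
  have e1 : ((m : ℂ) - 1 / 2) * Complex.I * ((2 * Real.pi : ℝ) : ℂ) =
      (m : ℂ) * Complex.I * ((2 * Real.pi : ℝ) : ℂ) + -(Real.pi * Complex.I) := by push_cast; ring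
  have e2 : Complex.exp (((m : ℂ) - 1 / 2) * Complex.I * ((2 * Real.pi : ℝ) : ℂ)) = -1 := by
    rw [e1, Complex.exp_add, exp_two_pi, Complex.exp_neg, Complex.exp_pi_mul_I]
    norm_num
  rw [e2]
  simp only [Complex.ofReal_zero, mul_zero, Complex.exp_zero]
  norm_num

lemma one_sub_ez {t : ℝ} (h0 : 0 ≤ t) (h1 : t ≤ 2 * Real.pi) : ((‖1 - ez t‖ : ℝ) : ℂ) =
    Complex.I * (Complex.exp (-(1 / 2 : ℂ) * Complex.I * t) - Complex.exp ((1 / 2 : ℂ) * Complex.I * t)) := by
  have e1 : ‖1 - ez t‖ = 2 * Real.sin (t / 2) := by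
    have h := Complex.norm_exp_I_mul_ofReal_sub_one t
    have h2 : 0 ≤ Real.sin (t / 2) := Real.sin_nonneg_of_nonneg_of_le_pi (by linarith) (by linarith)
    rw [norm_sub_rev]
    unfold ez
    rw [mul_comm, h, Real.norm_of_nonneg (by positivity)]
  rw [e1]
  push_cast
  rw [Complex.sin]
  have e2 : -(t / 2 : ℂ) * Complex.I = -(1 / 2 : ℂ) * Complex.I * t := by ring
  have e3 : (t / 2 : ℂ) * Complex.I = (1 / 2 : ℂ) * Complex.I * t := by ring
  rw [e2, e3]
  ring

/-- the Fourier coefficients of `|1 - z|` -/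
theorem four0 (m : ℤ) : ∫ t, em m t * ((‖1 - ez t‖ : ℝ) : ℂ) ∂nu = ((2 * Real.pi * tf m : ℝ) : ℂ) := by
  rw [nu_int]
  have e1 : ∫ t in (0 : ℝ)..(2 * Real.pi), em m t * ((‖1 - ez t‖ : ℝ) : ℂ) =
      ∫ t in (0 : ℝ)..(2 * Real.pi), (Complex.I * Complex.exp (((m : ℂ) - 1 / 2) * Complex.I * t) -
        Complex.I * Complex.exp ((((m + 1 : ℤ) : ℂ) - 1 / 2) * Complex.I * t)) := by
    refine intervalIntegral.integral_congr fun t ht => ?_
    rw [Set.uIcc_of_le (by positivity)] at ht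
    show em m t * ((‖1 - ez t‖ : ℝ) : ℂ) = _
    rw [one_sub_ez ht.1 ht.2]
    unfold em
    have e2 : Complex.exp (((m : ℂ) - 1 / 2) * Complex.I * t) =
        Complex.exp ((m : ℂ) * Complex.I * t) * Complex.exp (-(1 / 2 : ℂ) * Complex.I * t) := by
      rw [← Complex.exp_add]
      congr 1
      ring
    have e3 : Complex.exp ((((m + 1 : ℤ) : ℂ) - 1 / 2) * Complex.I * t) =
        Complex.exp ((m : ℂ) * Complex.I * t) * Complex.exp ((1 / 2 : ℂ) * Complex.I * t) := by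
      rw [← Complex.exp_add]
      congr 1
      push_cast
      ring
    rw [e2, e3]
    ring
  have hi : ∀ c : ℂ, IntervalIntegrable (fun t : ℝ => Complex.I * Complex.exp (c * Complex.I * t)) volume 0 (2 * Real.pi) := by
    intro c
    apply Continuous.intervalIntegrable
    fun_prop
  rw [e1, intervalIntegral.integral_sub (hi _) (hi _), intervalIntegral.integral_const_mul, intervalIntegral.integral_const_mul,
    half_int, half_int]
  have h0 : (m : ℂ) - 1 / 2 ≠ 0 := by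
    intro h
    have h1 : ((2 * m : ℤ) : ℂ) = ((1 : ℤ) : ℂ) := by push_cast; linear_combination 2 * h
    have h2 : 2 * m = 1 := by exact_mod_cast h1
    omega
  have h1 : (m : ℂ) + 1 / 2 ≠ 0 := by
    intro h
    have h1 : ((2 * m : ℤ) : ℂ) = ((-1 : ℤ) : ℂ) := by push_cast; linear_combination 2 * h
    have h2 : 2 * m = -1 := by exact_mod_cast h1
    omega
  have h2 : (((m + 1 : ℤ) : ℂ) - 1 / 2) = (m : ℂ) + 1 / 2 := by push_cast; ring
  rw [h2]
  unfold tf
  push_cast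
  have h3 : (1 - 4 * (m : ℂ) ^ 2) = -(4 * (((m : ℂ) - 1 / 2) * ((m : ℂ) + 1 / 2))) := by ring
  rw [h3]
  have hpi : (Real.pi : ℂ) ≠ 0 := by exact_mod_cast Real.pi_ne_zero
  have hI := Complex.I_ne_zero
  have h4 : (m : ℂ) + 1 / 2 = ((m : ℂ) - 1 / 2) + 1 := by ring
  rw [h4] at h1 ⊢
  generalize (m : ℂ) - 1 / 2 = x at h0 h1
  field_simp
  ring

/-- the Fourier coefficients of `|e^{is} - z|` -/
theorem four (s : ℝ) (a b : ℕ) : ∫ t, ez t ^ a * star (ez t) ^ b * ((‖ez s - ez t‖ : ℝ) : ℂ) ∂nu =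
    ez s ^ a * (star (ez s) ^ b * ((2 * Real.pi * tf ((a : ℤ) - b) : ℝ) : ℂ)) := by
  set g : ℝ → ℂ := fun t => ez t ^ a * star (ez t) ^ b * ((‖ez s - ez t‖ : ℝ) : ℂ) with hg
  have hez : ∀ t, ez (t + 2 * Real.pi) = ez t := by
    intro t
    unfold ez
    rw [Complex.exp_eq_exp_iff_exists_int]
    exact ⟨1, by push_cast; ring⟩
  have hper : Function.Periodic g (2 * Real.pi) := by
    intro t
    simp only [hg, hez]
  have hadd : ∀ t, ez (t + s) = ez t * ez s := by
    intro t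
    unfold ez
    rw [← Complex.exp_add]
    congr 1
    push_cast
    ring
  have e1 : ∀ t, g (t + s) = ez s ^ a * star (ez s) ^ b * (em ((a : ℤ) - b) t * ((‖1 - ez t‖ : ℝ) : ℂ)) := by
    intro t
    have h1 : ‖ez s - ez (t + s)‖ = ‖1 - ez t‖ := by
      rw [hadd, show ez s - ez t * ez s = ez s * (1 - ez t) by ring, norm_mul, ez_norm, one_mul]
    simp only [hg, h1]
    rw [← ez_pow, hadd, star_mul]
    ring
  rw [nu_int]
  have e2 : ∫ t in (0 : ℝ)..(2 * Real.pi), g t = ∫ t in (0 : ℝ)..(2 * Real.pi), g (t + s) := by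
    rw [intervalIntegral.integral_comp_add_right g s]
    have h := hper.intervalIntegral_add_eq 0 s
    rw [zero_add] at h
    rw [zero_add, h, add_comm s]
  rw [e2]
  simp_rw [e1]
  rw [intervalIntegral.integral_const_mul, ← nu_int fun t => em ((a : ℤ) - b) t * ((‖1 - ez t‖ : ℝ) : ℂ), four0]
  ring

/-- the Toeplitz determinant of `|e^{is} - z|` -/
theorem det_four (N : ℕ) (s : ℝ) :
    (Matrix.of fun a b : Fin N => ∫ t, ez t ^ (a : ℕ) * star (ez t) ^ (b : ℕ) * ((‖ez s - ez t‖ : ℝ) : ℂ) ∂nu).det =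
      (((2 * Real.pi) ^ N * ∏ i ∈ range N, rk i : ℝ) : ℂ) := by
  have e1 : (Matrix.of fun a b : Fin N => ∫ t, ez t ^ (a : ℕ) * star (ez t) ^ (b : ℕ) * ((‖ez s - ez t‖ : ℝ) : ℂ) ∂nu) =
      Matrix.of fun a b : Fin N => ez s ^ (a : ℕ) *
        (Matrix.of fun a b : Fin N => star (ez s) ^ (b : ℕ) *
          (Complex.ofRealHom.mapMatrix ((2 * Real.pi) • Matrix.of fun a b : Fin N => tf ((a : ℤ) - b))) a b) a b := by
    ext a b
    simp only [Matrix.of_apply, four, RingHom.mapMatrix_apply, Matrix.map_apply, Matrix.smul_apply, smul_eq_mul,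
      Complex.ofRealHom_eq_coe]
  rw [e1, Matrix.det_mul_column, Matrix.det_mul_row, ← RingHom.map_det, Matrix.det_smul, det_tf, Fintype.card_fin, ← mul_assoc,
    ← Finset.prod_mul_distrib]
  have e2 : (∏ i : Fin N, ez s ^ (i : ℕ) * star (ez s) ^ (i : ℕ)) = 1 :=
    Finset.prod_eq_one fun i _ => by rw [← mul_pow, ez_mul_star, one_pow]
  rw [e2, one_mul]
  rfl

/-- the Toeplitz determinant of the constant -/
theorem det_one (N : ℕ) :
    (Matrix.of fun a b : Fin N => ∫ t, ez t ^ (a : ℕ) * star (ez t) ^ (b : ℕ) * (1 : ℂ) ∂nu).det =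
      (((2 * Real.pi) ^ N : ℝ) : ℂ) := by
  have e1 : (Matrix.of fun a b : Fin N => ∫ t, ez t ^ (a : ℕ) * star (ez t) ^ (b : ℕ) * (1 : ℂ) ∂nu) =
      Matrix.diagonal fun _ : Fin N => ((2 * Real.pi : ℝ) : ℂ) := by
    ext a b
    simp only [Matrix.of_apply, mul_one, ez_pow, em_int, Matrix.diagonal_apply]
    by_cases h : a = b
    · rw [if_pos h, if_pos (by rw [h]; ring)]
    · rw [if_neg h, if_neg]
      intro h'
      apply h
      have : (a : ℤ) = b := by omega
      exact Fin.ext (by exact_mod_cast this)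
  rw [e1, Matrix.det_diagonal, Finset.prod_const, Finset.card_univ, Fintype.card_fin]
  push_cast
  rfl

end Pool.Agent.Helper95.KS
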