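import Pool.Agent.Helper95.RMT.Mean

/-! Block A3 of the random matrix model (MP_a499ba_nt), helper95. -/

set_option autoImplicit false
open Filter Finset Topology

namespace Pool.Agent.Helper95.KS

open Pool.Agent.Helper66.RMT

private lemma lin_quot (a b c : ℝ) : Tendsto (fun n : ℕ => (c * n + a) / (c * n + b)) atTop (𝓝 (if c = 0 then a / b else 1)) := by
  split_ifs with hc
  · simp [hc]
  · have h0 : Tendsto (fun n : ℕ => ((n : ℝ))⁻¹) atTop (𝓝 0) := tendsto_inv_atTop_zero.comp tendsto_natCast_atTop_atTop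
    have h1 : Tendsto (fun n : ℕ => (c + a * (n : ℝ)⁻¹) / (c + b * (n : ℝ)⁻¹)) atTop (𝓝 ((c + a * 0) / (c + b * 0))) := by
      apply Tendsto.div
      · exact tendsto_const_nhds.add (h0.const_mul a)
      · exact tendsto_const_nhds.add (h0.const_mul b)
      · simpa using hc
    have e : (c + a * 0) / (c + b * 0) = 1 := by rw [mul_zero, mul_zero, add_zero, div_self hc]
    rw [e] at h1
    refine h1.congr' ?_
    filter_upwards [eventually_ge_atTop 1] with n hn
    have hn' : (n : ℝ) ≠ 0 := by positivity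
    have e1 : c + a * (n : ℝ)⁻¹ = (c * n + a) / n := by field_simp
    have e2 : c + b * (n : ℝ)⁻¹ = (c * n + b) / n := by field_simp
    rw [e1, e2, div_div_div_cancel_right₀ hn']

private lemma rk_tendsto : Tendsto rk atTop (𝓝 1) := by
  have h1 := lin_quot 2 1 2
  rw [if_neg (by norm_num)] at h1
  have h2 := (h1.const_mul (2 / Real.pi)).mul Real.tendsto_prod_pi_div_two
  have e : 2 / Real.pi * 1 * (Real.pi / 2) = 1 := by
    have := Real.pi_ne_zero
    field_simp
  rw [e] at h2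
  exact h2

lemma rk_le (i : ℕ) : rk i ≤ (4 * i + 4) / (4 * i + 3) := by
  have hm : Monotone fun i : ℕ => rk i * ((4 * i + 3) / (4 * i + 4)) := by
    refine monotone_nat_of_le_succ fun i => ?_
    rw [rk_succ]
    have h0 := rk_pos i
    have h1 : (4 * ((i + 1 : ℕ) : ℝ) + 3) = 4 * i + 7 := by push_cast; ring
    have h2 : (4 * ((i + 1 : ℕ) : ℝ) + 4) = 4 * i + 8 := by push_cast; ring
    rw [h1, h2, mul_assoc]
    refine mul_le_mul_of_nonneg_left ?_ h0.le
    have h3 : ((i : ℝ) + 3 / 2) ^ 2 = (2 * i + 3) ^ 2 / 4 := by ring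
    rw [h3, ← sub_nonneg]
    have e : ((i : ℝ) + 1) * (i + 2) / ((2 * i + 3) ^ 2 / 4) * ((4 * i + 7) / (4 * i + 8)) - (4 * i + 3) / (4 * i + 4) =
        1 / (4 * (i + 1) * (2 * i + 3) ^ 2) := by
      have h4 : (4 * (i : ℝ) + 8) = 4 * (i + 2) := by ring
      have h5 : (4 * (i : ℝ) + 4) = 4 * (i + 1) := by ring
      rw [h4, h5]
      have h6 : ((i : ℝ) + 1) ≠ 0 := by positivity
      have h7 : ((i : ℝ) + 2) ≠ 0 := by positivity
      have h8 : (2 * (i : ℝ) + 3) ≠ 0 := by positivity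
      field_simp
      ring
    rw [e]
    positivity
  have h1 := lin_quot 3 4 4
  rw [if_neg (by norm_num)] at h1
  have h2 := rk_tendsto.mul h1
  rw [mul_one] at h2
  have h3 := hm.ge_of_tendsto h2 i
  have h4 : (0 : ℝ) < 4 * i + 3 := by positivity
  have h5 : (0 : ℝ) < 4 * i + 4 := by positivity
  rw [le_div_iff₀ h4]
  have h6 : rk i * ((4 * i + 3) / (4 * i + 4)) = rk i * (4 * i + 3) / (4 * i + 4) := by ring
  rw [h6, div_le_one h5] at h3
  exact h3

lemma le_rk (i : ℕ) : (4 * i + 5) / (4 * i + 4) ≤ rk i := by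
  have hm : Antitone fun i : ℕ => rk i * ((4 * i + 4) / (4 * i + 5)) := by
    refine antitone_nat_of_succ_le fun i => ?_
    rw [rk_succ]
    have h0 := rk_pos i
    have h1 : (4 * ((i + 1 : ℕ) : ℝ) + 4) = 4 * i + 8 := by push_cast; ring
    have h2 : (4 * ((i + 1 : ℕ) : ℝ) + 5) = 4 * i + 9 := by push_cast; ring
    rw [h1, h2, mul_assoc]
    refine mul_le_mul_of_nonneg_left ?_ h0.le
    have h3 : ((i : ℝ) + 3 / 2) ^ 2 = (2 * i + 3) ^ 2 / 4 := by ring
    rw [h3, ← sub_nonneg]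
    have e : (4 * (i : ℝ) + 4) / (4 * i + 5) - ((i : ℝ) + 1) * (i + 2) / ((2 * i + 3) ^ 2 / 4) * ((4 * i + 8) / (4 * i + 9)) =
        4 * (i + 1) / ((4 * i + 5) * (2 * i + 3) ^ 2 * (4 * i + 9)) := by
      have h6 : (4 * (i : ℝ) + 5) ≠ 0 := by positivity
      have h7 : (4 * (i : ℝ) + 9) ≠ 0 := by positivity
      have h8 : (2 * (i : ℝ) + 3) ≠ 0 := by positivity
      field_simp
      ring
    rw [e]
    positivity
  have h1 := lin_quot 4 5 4
  rw [if_neg (by norm_num)] at h1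
  have h2 := rk_tendsto.mul h1
  rw [mul_one] at h2
  have h3 := hm.le_of_tendsto h2 i
  have h4 : (0 : ℝ) < 4 * i + 4 := by positivity
  have h5 : (0 : ℝ) < 4 * i + 5 := by positivity
  rw [div_le_iff₀ h4]
  have h6 : rk i * ((4 * i + 4) / (4 * i + 5)) = rk i * (4 * i + 4) / (4 * i + 5) := by ring
  rw [h6, le_div_iff₀ h5, one_mul] at h3
  exact h3

/-- the product divided by `(N + 1)^(1/4)` is at least one -/
private lemma prod_ge (N : ℕ) : ((N : ℝ) + 1) ^ (1 / 4 : ℝ) ≤ ∏ i ∈ range N, rk i := by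
  induction N with
  | zero => simp
  | succ N ih =>
    rw [Finset.prod_range_succ]
    have h1 : (((N + 1 : ℕ) : ℝ) + 1) = ((N : ℝ) + 1) * (1 + 1 / (N + 1)) := by push_cast; field_simp
    rw [h1, Real.mul_rpow (by positivity) (by positivity)]
    refine mul_le_mul ih ?_ (by positivity) (Finset.prod_nonneg fun i _ => (rk_pos i).le)
    refine le_trans ?_ (le_rk N)
    have h2 : (1 + 1 / ((N : ℝ) + 1)) ≤ ((4 * N + 5) / (4 * N + 4)) ^ (4 : ℕ) := by
      have h3 := one_add_mul_le_pow (a := 1 / (4 * ((N : ℝ) + 1))) (le_trans (by norm_num) (by positivity : (0 : ℝ) ≤ 1 / (4 * ((N : ℝ) + 1)))) 4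
      have h4 : (1 + 1 / (4 * ((N : ℝ) + 1))) = (4 * N + 5) / (4 * N + 4) := by field_simp; ring
      rw [h4] at h3
      refine le_trans (le_of_eq ?_) h3
      push_cast
      field_simp
    calc (1 + 1 / ((N : ℝ) + 1)) ^ (1 / 4 : ℝ) ≤ (((4 * N + 5) / (4 * N + 4) : ℝ) ^ (4 : ℕ)) ^ (1 / 4 : ℝ) :=
          Real.rpow_le_rpow (by positivity) h2 (by norm_num)
      _ = (4 * N + 5) / (4 * N + 4) := by
          rw [← Real.rpow_natCast, ← Real.rpow_mul (by positivity)]
          norm_num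

/-- one step of the quotient -/
private lemma rk_step (N : ℕ) : rk (N + 1) ≤ (((N : ℝ) + 2) / (N + 1)) ^ (1 / 4 : ℝ) := by
  refine (rk_le (N + 1)).trans ?_
  have h1 : ((4 * ((N + 1 : ℕ) : ℝ) + 4) / (4 * ((N + 1 : ℕ) : ℝ) + 3)) = (4 * N + 8) / (4 * N + 7) := by push_cast; ring_nf
  rw [h1]
  have h2 : ((4 * (N : ℝ) + 8) / (4 * N + 7)) ^ (4 : ℕ) ≤ ((N : ℝ) + 2) / (N + 1) := by
    have h3 := one_add_mul_le_pow (a := -(1 / (4 * ((N : ℝ) + 2)))) (by
      have : 1 / (4 * ((N : ℝ) + 2)) ≤ 1 := by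
        rw [div_le_one (by positivity)]
        have : (0 : ℝ) ≤ N := by positivity
        linarith
      linarith) 4
    have h4 : (1 + -(1 / (4 * ((N : ℝ) + 2)))) = (4 * N + 7) / (4 * N + 8) := by field_simp; ring
    have h5 : (1 + ((4 : ℕ) : ℝ) * -(1 / (4 * ((N : ℝ) + 2)))) = (N + 1) / (N + 2) := by push_cast; field_simp; ring
    rw [h4, h5] at h3
    have h6 : ((4 * (N : ℝ) + 8) / (4 * N + 7)) ^ (4 : ℕ) = (((4 * (N : ℝ) + 7) / (4 * N + 8)) ^ (4 : ℕ))⁻¹ := by
      rw [← inv_pow, inv_div]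
    have h7 : ((N : ℝ) + 2) / (N + 1) = (((N : ℝ) + 1) / (N + 2))⁻¹ := by rw [inv_div]
    rw [h6, h7]
    exact inv_anti₀ (by positivity) h3
  calc (4 * (N : ℝ) + 8) / (4 * N + 7) = (((4 * (N : ℝ) + 8) / (4 * N + 7)) ^ (4 : ℕ)) ^ (1 / 4 : ℝ) := by
        rw [← Real.rpow_natCast, ← Real.rpow_mul (by positivity)]
        norm_num
    _ ≤ _ := Real.rpow_le_rpow (by positivity) h2 (by norm_num)

end Pool.Agent.Helper95.KS

namespace Pool.Agent.Helper66.RMT

open Pool.Agent.Helper95.KS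

/-- A3. -/
theorem aa_lim : ∃ κ : ℝ, 0 < κ ∧
    Tendsto (fun N : ℕ => (∏ j ∈ Icc 1 N, aa j) / (N : ℝ) ^ (1 / 4 : ℝ)) atTop (𝓝 κ) := by
  set u : ℕ → ℝ := fun N => (∏ i ∈ range (N + 1), rk i) / ((N : ℝ) + 1) ^ (1 / 4 : ℝ) with hu
  have hanti : Antitone u := by
    refine antitone_nat_of_succ_le fun N => ?_
    simp only [hu]
    rw [Finset.prod_range_succ _ (N + 1)]
    have h1 : (((N + 1 : ℕ) : ℝ) + 1) = N + 2 := by push_cast; ring
    rw [h1, div_le_div_iff₀ (by positivity) (by positivity), mul_assoc]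
    refine mul_le_mul_of_nonneg_left ?_ (Finset.prod_nonneg fun i _ => (rk_pos i).le)
    have h2 := rk_step N
    rw [Real.div_rpow (by positivity) (by positivity), le_div_iff₀ (by positivity)] at h2
    exact h2
  have hge : ∀ N, 1 ≤ u N := by
    intro N
    simp only [hu]
    rw [le_div_iff₀ (by positivity), one_mul]
    refine le_trans ?_ (prod_ge (N + 1))
    exact Real.rpow_le_rpow (by positivity) (by push_cast; linarith) (by norm_num)
  have hb : BddBelow (Set.range u) := ⟨1, by rintro _ ⟨N, rfl⟩; exact hge N⟩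
  refine ⟨⨅ N, u N, lt_of_lt_of_le one_pos (le_ciInf hge), ?_⟩
  rw [← tendsto_add_atTop_iff_nat 1]
  refine (tendsto_atTop_ciInf hanti hb).congr fun N => ?_
  simp only [hu, prod_aa]
  push_cast
  rfl

end Pool.Agent.Helper66.RMT
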