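import Pool.Agent.Helper95.RMT.Andr

/-! Random matrix model (MP_a499ba_nt), helper95: splitting off one angle. -/

set_option autoImplicit false
open MeasureTheory Finset

namespace Pool.Agent.Helper95.KS

open Pool.Agent.Helper66.RMT

lemma exp_sub_ez (a b : ℝ) : ‖1 - Complex.exp ((a - b : ℝ) * Complex.I)‖ = ‖ez b - ez a‖ := by
  have h : ez b * (1 - Complex.exp ((a - b : ℝ) * Complex.I)) = ez b - ez a := by
    unfold ez
    rw [mul_sub, mul_one, ← Complex.exp_add]
    congr 2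
    push_cast
    ring
  rw [← h, norm_mul, ez_norm, one_mul]

private lemma erase_prod {ι : Type*} [Fintype ι] [DecidableEq ι] (i : ι) (f : ι → ℝ) :
    ∏ k ∈ univ.erase i, f k = ∏ k, if k = i then 1 else f k := by
  rw [← Finset.mul_prod_erase univ (fun k => if k = i then 1 else f k) (mem_univ i), if_pos rfl, one_mul]
  exact Finset.prod_congr rfl fun k hk => (if_neg (Finset.ne_of_mem_erase hk)).symm

/-- the weight as a product over ordered pairs -/
private lemma vdm_ord {N : ℕ} (θ : Fin N → ℝ) :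
    vdm θ = ∏ i : Fin N, ∏ k : Fin N, if k = i then 1 else ‖ez (θ i) - ez (θ k)‖ := by
  have e1 : ∀ i : Fin N, (∏ k : Fin N, if k = i then (1 : ℝ) else ‖ez (θ i) - ez (θ k)‖) =
      (∏ k ∈ Ioi i, ‖ez (θ i) - ez (θ k)‖) * ∏ k ∈ Iio i, ‖ez (θ i) - ez (θ k)‖ := by
    intro i
    rw [← erase_prod i fun k => ‖ez (θ i) - ez (θ k)‖, ← Finset.prod_union]
    · refine Finset.prod_congr ?_ fun _ _ => rfl
      ext k
      simp only [mem_erase, mem_univ, and_true, mem_union, mem_Ioi, mem_Iio]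
      constructor
      · intro h
        exact (lt_or_gt_of_ne h).symm.imp id id
      · rintro (h | h)
        · exact h.ne'
        · exact h.ne
    · rw [Finset.disjoint_left]
      intro k h1 h2
      exact lt_asymm (mem_Ioi.1 h1) (mem_Iio.1 h2)
  simp_rw [e1]
  rw [Finset.prod_mul_distrib]
  have e2 : (∏ i : Fin N, ∏ k ∈ Iio i, ‖ez (θ i) - ez (θ k)‖) = ∏ k : Fin N, ∏ i ∈ Ioi k, ‖ez (θ i) - ez (θ k)‖ := by
    refine Finset.prod_comm' fun i k => ?_
    simp only [mem_univ, mem_Iio, mem_Ioi, true_and, and_true]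
  rw [e2, ← Finset.prod_mul_distrib]
  unfold vdm
  refine Finset.prod_congr rfl fun i _ => ?_
  rw [← Finset.prod_mul_distrib]
  refine Finset.prod_congr rfl fun k _ => ?_
  rw [norm_sub_rev (ez (θ k)) (ez (θ i)), ← sq]
  rfl

/-- the derivative of the characteristic polynomial -/
lemma dz_norm {N : ℕ} (θ : Fin (N + 1) → ℝ) (j : Fin (N + 1)) :
    ‖dz θ j‖ = ∏ k : Fin N, ‖ez (θ j) - ez (θ (j.succAbove k))‖ := by
  unfold dz
  rw [norm_prod]
  simp_rw [exp_sub_ez]
  rw [erase_prod j fun k => ‖ez (θ j) - ez (θ k)‖, Fin.prod_univ_succAbove _ j, if_pos rfl, one_mul]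
  exact Finset.prod_congr rfl fun k _ => if_neg (Fin.succAbove_ne j k)

/-- splitting off one angle -/
lemma vdm_split {N : ℕ} (θ : Fin (N + 1) → ℝ) (j : Fin (N + 1)) :
    vdm θ = vdm (fun k => θ (j.succAbove k)) * ∏ k : Fin N, ‖ez (θ j) - ez (θ (j.succAbove k))‖ ^ 2 := by
  rw [vdm_ord, vdm_ord, Fin.prod_univ_succAbove _ j, Fin.prod_univ_succAbove _ j, if_pos rfl, one_mul]
  have e1 : ∀ i : Fin N, (∏ k : Fin (N + 1), if k = j.succAbove i then (1 : ℝ) else ‖ez (θ (j.succAbove i)) - ez (θ k)‖) =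
      ‖ez (θ j) - ez (θ (j.succAbove i))‖ *
        ∏ k : Fin N, if k = i then (1 : ℝ) else ‖ez (θ (j.succAbove i)) - ez (θ (j.succAbove k))‖ := by
    intro i
    rw [Fin.prod_univ_succAbove _ j, if_neg (Fin.succAbove_ne j i).symm, norm_sub_rev]
    congr 1
    refine Finset.prod_congr rfl fun k _ => ?_
    by_cases h : k = i
    · rw [if_pos h, if_pos (by rw [h])]
    · rw [if_neg h, if_neg fun h' => h (Fin.succAbove_right_injective h')]
  simp_rw [e1]
  have e2 : (∏ k : Fin N, if j.succAbove k = j then (1 : ℝ) else ‖ez (θ j) - ez (θ (j.succAbove k))‖) =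
      ∏ k : Fin N, ‖ez (θ j) - ez (θ (j.succAbove k))‖ :=
    Finset.prod_congr rfl fun k _ => if_neg (Fin.succAbove_ne j k)
  rw [e2, Finset.prod_mul_distrib, Finset.prod_pow]
  ring

lemma vdm_nonneg {N : ℕ} (θ : Fin N → ℝ) : 0 ≤ vdm θ := by
  unfold vdm
  exact Finset.prod_nonneg fun i _ => Finset.prod_nonneg fun k _ => by positivity

lemma ez_sub_le (a b : ℝ) : ‖ez a - ez b‖ ≤ 2 := by
  refine (norm_sub_le _ _).trans ?_
  rw [ez_norm, ez_norm]
  norm_num

lemma vdm_cont (N : ℕ) : Continuous fun θ : Fin N → ℝ => vdm θ := by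
  unfold vdm
  fun_prop

lemma dz_cont {N : ℕ} (j : Fin N) : Continuous fun θ : Fin N → ℝ => dz θ j := by
  unfold dz
  fun_prop

/-- integrals over the box: one angle and the others -/
lemma lint_split {N : ℕ} (j : Fin (N + 1)) {F : ℝ → (Fin N → ℝ) → ENNReal} (hF : Measurable (Function.uncurry F)) :
    ∫⁻ θ, F (θ j) (fun k => θ (j.succAbove k)) ∂(nuN (N + 1)) = ∫⁻ s, ∫⁻ θ, F s θ ∂(nuN N) ∂nu := by
  have h := measurePreserving_piFinSuccAbove (fun _ : Fin (N + 1) => nu) j
  have e := h.lintegral_comp hF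
  rw [MeasureTheory.lintegral_prod _ hF.aemeasurable] at e
  exact e

lemma int_split {N : ℕ} (j : Fin (N + 1)) {F : ℝ × (Fin N → ℝ) → ℝ} (hF : Integrable F (nu.prod (nuN N))) :
    ∫ θ, F (θ j, fun k => θ (j.succAbove k)) ∂(nuN (N + 1)) = ∫ s, ∫ θ, F (s, θ) ∂(nuN N) ∂nu := by
  have h := measurePreserving_piFinSuccAbove (fun _ : Fin (N + 1) => nu) j
  have e := h.integral_comp' (g := F)
  have e2 := MeasureTheory.integral_prod F hF
  exact e.trans e2

end Pool.Agent.Helper95.KS
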